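import Pool.Agent.Helper55.Core2.FinrankT
import Pool.Agent.Helper78.Core2.Lin1
import Pool.Agent.Helper84.Core2.Lin4

set_option autoImplicit false

/-! Offer O13: the four statements with the signatures of the skeleton. -/

namespace Pool.Agent.Helper55.Core2

open Pool.Agent.Helper5.Core2

variable {V T : Type*} [AddCommGroup V] [Module (ZMod 2) V] [AddCommGroup T] [Module (ZMod 2) T]
  {q : V → T} {β : V →ₗ[ZMod 2] V →ₗ[ZMod 2] T}

theorem tools [Finite V] (h : IsQ q β) : Tools q β where
  club θ _ _ hx hy hxy := Helper78.Core2.club h θ hx hy hxy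
  arf_ne θ _ _ _ _ hab hcd hac had hbc hbd := Helper78.Core2.arf_ne h θ hab hcd hac had hbc hbd
  rank_cases θ := Helper78.Core2.rank_cases h θ
  iso_bound θ U hU := Helper78.Core2.iso_bound h θ U hU

theorem exists_rank_four [Finite V] [Finite T] (h : MinL q β) :
    ∃ θ : Module.Dual (ZMod 2) T,
      Module.finrank (ZMod 2) V = Module.finrank (ZMod 2) (RR β θ) + 4 :=
  exists_rank_four' h (tools h.isQ)
    (fun hV => Helper84.Core2.four (fun θ => Helper78.Core2.rank_cases h.isQ θ) h.isQ hV)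

theorem rad_isotropic [Finite V] [Finite T] (h : MinL q β) (θ : Module.Dual (ZMod 2) T)
    (hθ : Module.finrank (ZMod 2) V = Module.finrank (ZMod 2) (RR β θ) + 4) :
    ∀ x ∈ RR β θ, ∀ y ∈ RR β θ, β x y = 0 :=
  rad_isotropic' h (tools h.isQ) θ hθ

theorem rad_le_one [Finite V] [Finite T] (h : MinL q β) (θ : Module.Dual (ZMod 2) T)
    (hθ : Module.finrank (ZMod 2) V = Module.finrank (ZMod 2) (RR β θ) + 4) :
    Module.finrank (ZMod 2) (RR β θ) ≤ 1 :=
  rad_le_one' h (tools h.isQ) θ hθ

theorem finrank_T [Finite V] [Finite T] (h : MinL q β)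
    (hV : Module.finrank (ZMod 2) V = 5) : Module.finrank (ZMod 2) T = 3 :=
  finrank_T' h (tools h.isQ) hV

end Pool.Agent.Helper55.Core2
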