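import Pool.Agent.Helper55.Core2.LinRad

set_option autoImplicit false

/-! The dimension of the target space of a minimal bad configuration of dimension five. -/

namespace Pool.Agent.Helper55.Core2

open Pool.Agent.Helper5.Core2 Module

variable {V T : Type*} [AddCommGroup V] [Module (ZMod 2) V] [AddCommGroup T] [Module (ZMod 2) T]
  {q : V → T} {β : V →ₗ[ZMod 2] V →ₗ[ZMod 2] T}

theorem exists_not_mem_of_lt {M : Type*} [AddCommGroup M] [Module (ZMod 2) M] [Finite M]
    {S H : Submodule (ZMod 2) M} (hlt : finrank (ZMod 2) S < finrank (ZMod 2) H) :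
    ∃ c ∈ H, c ∉ S := by
  by_contra hno
  push Not at hno
  have hle : H ≤ S := hno
  have := Submodule.finrank_mono hle
  omega

theorem finrank_sup_span {M : Type*} [AddCommGroup M] [Module (ZMod 2) M] [Finite M]
    (S : Submodule (ZMod 2) M) (c : M) :
    finrank (ZMod 2) (S ⊔ Submodule.span (ZMod 2) {c} : Submodule (ZMod 2) M) ≤
      finrank (ZMod 2) S + 1 := by
  have h1 := Submodule.finrank_add_le_finrank_add_finrank S (Submodule.span (ZMod 2) {c})
  have h2 : finrank (ZMod 2) (Submodule.span (ZMod 2) {c}) ≤ 1 := by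
    have := finrank_span_le_card (R := ZMod 2) ({c} : Set M)
    simpa using this
  omega

theorem finrank_sup_span_eq {M : Type*} [AddCommGroup M] [Module (ZMod 2) M] [Finite M]
    (S : Submodule (ZMod 2) M) (c : M) (hc : c ∉ S) :
    finrank (ZMod 2) (S ⊔ Submodule.span (ZMod 2) {c} : Submodule (ZMod 2) M) =
      finrank (ZMod 2) S + 1 := by
  have h1 := finrank_sup_span S c
  have hlt : S < S ⊔ Submodule.span (ZMod 2) {c} := by
    refine lt_of_le_of_ne le_sup_left ?_
    intro heq
    apply hc
    rw [heq]
    exact Submodule.mem_sup_right (Submodule.mem_span_singleton_self c)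
  have h2 := Submodule.finrank_lt_finrank_of_lt hlt
  omega

theorem iso_sup_span (hQ : IsQ q β) {I : Submodule (ZMod 2) V} {c : V}
    (hI : ∀ u ∈ I, ∀ v ∈ I, β u v = 0) (hc : ∀ u ∈ I, β c u = 0) :
    ∀ u ∈ I ⊔ Submodule.span (ZMod 2) {c}, ∀ v ∈ I ⊔ Submodule.span (ZMod 2) {c}, β u v = 0 := by
  intro u hu v hv
  obtain ⟨a, ha, b, hb, rfl⟩ := Submodule.mem_sup.mp hu
  obtain ⟨c', hc', d, hd, rfl⟩ := Submodule.mem_sup.mp hv
  obtain ⟨k, rfl⟩ := Submodule.mem_span_singleton.mp hb
  obtain ⟨l, rfl⟩ := Submodule.mem_span_singleton.mp hd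
  simp only [map_add, LinearMap.add_apply, map_smul, LinearMap.smul_apply]
  rw [hI a ha c' hc', hc c' hc', beta_symm hQ a c, hc a ha, beta_self hQ]
  simp

theorem iso_span (hQ : IsQ q β) (c : V) :
    ∀ u ∈ Submodule.span (ZMod 2) {c}, ∀ v ∈ Submodule.span (ZMod 2) {c}, β u v = 0 := by
  intro u hu v hv
  obtain ⟨k, rfl⟩ := Submodule.mem_span_singleton.mp hu
  obtain ⟨l, rfl⟩ := Submodule.mem_span_singleton.mp hv
  simp [beta_self hQ]

theorem ker_finrank [Finite T] {θ : Module.Dual (ZMod 2) T} (hθ : θ ≠ 0) :
    finrank (ZMod 2) (LinearMap.ker θ) + 1 = finrank (ZMod 2) T := by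
  have h1 := LinearMap.finrank_range_add_finrank_ker θ
  have h2 : LinearMap.range θ = ⊤ := by
    rw [LinearMap.range_eq_top]
    intro a
    obtain ⟨t, ht⟩ : ∃ t, θ t ≠ 0 := by
      by_contra hno
      push Not at hno
      exact hθ (LinearMap.ext hno)
    exact ⟨a • t, by rw [map_smul, z2' ht, smul_eq_mul, mul_one]⟩
  rw [h2, finrank_top, finrank_self] at h1
  omega

/-- The case where the range of `β n` is a line. -/
theorem case_line [Finite V] [Finite T] (h : MinL q β) (t : Tools q β)
    (hV : finrank (ZMod 2) V = 5) (θ : Module.Dual (ZMod 2) T) (hθ0 : θ ≠ 0)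
    (hθ : finrank (ZMod 2) V = finrank (ZMod 2) (RR β θ) + 4) {n : V} (hn : n ∈ RR β θ)
    (hn0 : n ≠ 0) (hH : finrank (ZMod 2) (LinearMap.ker (β n)) = 4) :
    finrank (ZMod 2) T = 3 := by
  have hQ := h.isQ
  set H := LinearMap.ker (β n) with hHdef
  have hnH : n ∈ H := by rw [hHdef, LinearMap.mem_ker]; exact beta_self hQ n
  -- the key nonvanishing
  have key : ∀ c ∈ H, ∀ d ∈ H, c ∉ Submodule.span (ZMod 2) {n} →
      d ∉ Submodule.span (ZMod 2) {n} ⊔ Submodule.span (ZMod 2) {c} → β c d ≠ 0 := by
    intro c hc d hd hcn hdn h0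
    refine h.bad ⟨Submodule.span (ZMod 2) {n} ⊔ Submodule.span (ZMod 2) {c} ⊔
      Submodule.span (ZMod 2) {d}, ?_, ?_⟩
    · apply iso_sup_span hQ
      · apply iso_sup_span hQ (iso_span hQ n)
        intro u hu
        obtain ⟨k, rfl⟩ := Submodule.mem_span_singleton.mp hu
        rw [map_smul, beta_symm hQ, LinearMap.mem_ker.mp hc, smul_zero]
      · intro u hu
        obtain ⟨a, ha, b, hb, rfl⟩ := Submodule.mem_sup.mp hu
        obtain ⟨k, rfl⟩ := Submodule.mem_span_singleton.mp ha
        obtain ⟨l, rfl⟩ := Submodule.mem_span_singleton.mp hb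
        rw [map_add, map_smul, map_smul, beta_symm hQ d n, LinearMap.mem_ker.mp hd,
          beta_symm hQ d c, h0, smul_zero, smul_zero, add_zero]
    · rw [finrank_sup_span_eq _ _ hdn, finrank_sup_span_eq _ _ hcn, finrank_span_singleton hn0, hV]
  have s1 : finrank (ZMod 2) (Submodule.span (ZMod 2) {n}) = 1 := finrank_span_singleton hn0
  obtain ⟨c1, hc1, hc1n⟩ := exists_not_mem_of_lt (S := Submodule.span (ZMod 2) {n}) (H := H)
    (by rw [s1, hH]; omega)
  have s2 := finrank_sup_span_eq _ _ hc1n
  obtain ⟨c2, hc2, hc2n⟩ := exists_not_mem_of_lt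
    (S := Submodule.span (ZMod 2) {n} ⊔ Submodule.span (ZMod 2) {c1}) (H := H)
    (by rw [s2, s1, hH]; omega)
  have s3 := finrank_sup_span_eq _ _ hc2n
  obtain ⟨c3, hc3, hc3n⟩ := exists_not_mem_of_lt
    (S := Submodule.span (ZMod 2) {n} ⊔ Submodule.span (ZMod 2) {c1} ⊔
      Submodule.span (ZMod 2) {c2}) (H := H)
    (by rw [s3, s2, s1, hH]; omega)
  have s4 := finrank_sup_span_eq _ _ hc3n
  have hS4 : Submodule.span (ZMod 2) {n} ⊔ Submodule.span (ZMod 2) {c1} ⊔
      Submodule.span (ZMod 2) {c2} ⊔ Submodule.span (ZMod 2) {c3} = H := by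
    refine Submodule.eq_of_le_of_finrank_le ?_ (by omega)
    refine sup_le (sup_le (sup_le ?_ ?_) ?_) ?_ <;>
      rw [Submodule.span_singleton_le_iff_mem] <;> assumption
  -- membership facts
  have mem2 : ∀ (a b : ZMod 2), a • n + b • c1 ∈
      Submodule.span (ZMod 2) {n} ⊔ Submodule.span (ZMod 2) {c1} := fun a b =>
    Submodule.mem_sup.mpr ⟨_, Submodule.smul_mem _ _ (Submodule.mem_span_singleton_self n), _,
      Submodule.smul_mem _ _ (Submodule.mem_span_singleton_self c1), rfl⟩
  have mem3 : ∀ (a b c : ZMod 2), a • n + b • c1 + c • c2 ∈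
      Submodule.span (ZMod 2) {n} ⊔ Submodule.span (ZMod 2) {c1} ⊔
        Submodule.span (ZMod 2) {c2} := fun a b c =>
    Submodule.mem_sup.mpr ⟨_, mem2 a b, _,
      Submodule.smul_mem _ _ (Submodule.mem_span_singleton_self c2), rfl⟩
  -- linear relation among n, c1, c2, c3 is trivial
  have indep : ∀ a b c d : ZMod 2, a • n + b • c1 + c • c2 + d • c3 = 0 →
      a = 0 ∧ b = 0 ∧ c = 0 ∧ d = 0 := by
    intro a b c d habcd
    have hd : d = 0 := by
      rcases z2 d with hd | hd
      · exact hd
      · exfalso
        apply hc3n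
        rw [hd, one_smul] at habcd
        have : c3 = a • n + b • c1 + c • c2 := by
          have e := add_self_eq c3
          rw [← habcd] at e
          exact add_right_cancel e
        rw [this]
        exact mem3 a b c
    rw [hd, zero_smul, add_zero] at habcd
    have hc : c = 0 := by
      rcases z2 c with hc | hc
      · exact hc
      · exfalso
        apply hc2n
        rw [hc, one_smul] at habcd
        have : c2 = a • n + b • c1 := by
          have e := add_self_eq c2
          rw [← habcd] at e
          exact add_right_cancel e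
        rw [this]
        exact mem2 a b
    rw [hc, zero_smul, add_zero] at habcd
    have hb : b = 0 := by
      rcases z2 b with hb | hb
      · exact hb
      · exfalso
        apply hc1n
        rw [hb, one_smul] at habcd
        have : c1 = a • n := by
          have e := add_self_eq c1
          rw [← habcd] at e
          exact add_right_cancel e
        rw [this]
        exact Submodule.smul_mem _ _ (Submodule.mem_span_singleton_self n)
    rw [hb, zero_smul, add_zero] at habcd
    have ha : a = 0 := by
      rcases z2 a with ha | ha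
      · exact ha
      · rw [ha, one_smul] at habcd; exact absurd habcd hn0
    exact ⟨ha, hb, hc, hd⟩
  -- nonvanishing for combinations of the c's
  have nz : ∀ b c d b' c' d' : ZMod 2,
      (∀ k : ZMod 2, (b, c, d) ≠ (0, 0, 0)) →
      (∀ k : ZMod 2, (b', c', d') ≠ (k * b, k * c, k * d)) →
      β (b • c1 + c • c2 + d • c3) (b' • c1 + c' • c2 + d' • c3) ≠ 0 := by
    intro b c d b' c' d' h1 h2
    apply key
    · exact add_mem (add_mem (Submodule.smul_mem _ _ hc1) (Submodule.smul_mem _ _ hc2))
        (Submodule.smul_mem _ _ hc3)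
    · exact add_mem (add_mem (Submodule.smul_mem _ _ hc1) (Submodule.smul_mem _ _ hc2))
        (Submodule.smul_mem _ _ hc3)
    · intro hm
      obtain ⟨k, hk⟩ := Submodule.mem_span_singleton.mp hm
      have e : k • n + b • c1 + c • c2 + d • c3 = 0 := by
        have e1 := add_self_eq (k • n)
        nth_rewrite 2 [hk] at e1
        rw [← e1]; abel
      obtain ⟨-, hb, hc, hd⟩ := indep _ _ _ _ e
      exact h1 0 (by rw [hb, hc, hd])
    · intro hm
      obtain ⟨u, hu, v, hv, huv⟩ := Submodule.mem_sup.mp hm
      obtain ⟨k, rfl⟩ := Submodule.mem_span_singleton.mp hu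
      obtain ⟨l, rfl⟩ := Submodule.mem_span_singleton.mp hv
      have e : k • n + (b' + l * b) • c1 + (c' + l * c) • c2 + (d' + l * d) • c3 = 0 := by
        have e1 := add_self_eq (b' • c1 + c' • c2 + d' • c3)
        nth_rewrite 2 [← huv] at e1
        rw [← e1]
        simp only [add_smul, mul_smul, smul_add]
        abel
      obtain ⟨-, hb, hc, hd⟩ := indep _ _ _ _ e
      apply h2 l
      have z : ∀ x y : ZMod 2, x + y = 0 → x = y := by decide
      rw [z _ _ hb, z _ _ hc, z _ _ hd]
  set t12 := β c1 c2 with ht12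
  set t13 := β c1 c3 with ht13
  set t23 := β c2 c3 with ht23
  have hli : LinearIndependent (ZMod 2) ![t12, t13, t23] := by
    rw [Fintype.linearIndependent_iff]
    intro g hg
    rw [Fin.sum_univ_three] at hg
    simp only [Matrix.cons_val_zero, Matrix.cons_val_one, Matrix.cons_val_two,
      Matrix.head_cons, Matrix.tail_cons] at hg
    generalize hg0 : g 0 = x at hg
    generalize hg1 : g 1 = y at hg
    generalize hg2 : g 2 = w at hg
    have hxyw : x = 0 ∧ y = 0 ∧ w = 0 := by
      rcases z2 x with rfl | rfl <;> rcases z2 y with rfl | rfl <;> rcases z2 w with rfl | rfl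
      · exact ⟨rfl, rfl, rfl⟩
      · exfalso
        have := nz 0 1 0 0 0 1 (by decide) (by decide)
        simp only [zero_smul, one_smul, zero_add, add_zero] at this hg
        exact this hg
      · exfalso
        have := nz 1 0 0 0 0 1 (by decide) (by decide)
        simp only [zero_smul, one_smul, zero_add, add_zero] at this hg
        exact this hg
      · exfalso
        have := nz 0 0 1 1 1 0 (by decide) (by decide)
        simp only [zero_smul, one_smul, zero_add, add_zero, map_add] at this hg
        rw [beta_symm hQ c3 c1, beta_symm hQ c3 c2] at this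
        exact this hg
      · exfalso
        have := nz 1 0 0 0 1 0 (by decide) (by decide)
        simp only [zero_smul, one_smul, zero_add, add_zero] at this hg
        exact this hg
      · exfalso
        have := nz 0 1 0 1 0 1 (by decide) (by decide)
        simp only [zero_smul, one_smul, zero_add, add_zero, map_add] at this hg
        rw [beta_symm hQ c2 c1] at this
        exact this hg
      · exfalso
        have := nz 1 0 0 0 1 1 (by decide) (by decide)
        simp only [zero_smul, one_smul, zero_add, add_zero, map_add] at this hg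
        exact this hg
      · exfalso
        have := nz 1 1 0 1 0 1 (by decide) (by decide)
        simp only [zero_smul, one_smul, zero_add, add_zero, map_add, LinearMap.add_apply] at this hg
        rw [beta_self hQ, zero_add, beta_symm hQ c2 c1] at this
        apply this
        rw [← hg]; abel
    obtain ⟨rfl, rfl, rfl⟩ := hxyw
    intro i
    fin_cases i
    · exact hg0
    · exact hg1
    · exact hg2
  set T1 : Submodule (ZMod 2) T := Submodule.span (ZMod 2) (Set.range ![t12, t13, t23]) with hT1
  have hT1d : finrank (ZMod 2) T1 = 3 := by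
    rw [hT1, finrank_span_eq_card hli, Fintype.card_fin]
  have m12 : t12 ∈ T1 := Submodule.subset_span ⟨0, rfl⟩
  have m13 : t13 ∈ T1 := Submodule.subset_span ⟨1, rfl⟩
  have m23 : t23 ∈ T1 := Submodule.subset_span ⟨2, rfl⟩
  have hβH : ∀ u ∈ H, ∀ v ∈ H, β u v ∈ T1 := by
    have gen : ∀ u ∈ H, ∃ a b c d : ZMod 2, u = a • n + b • c1 + c • c2 + d • c3 := by
      intro u hu
      rw [← hS4] at hu
      obtain ⟨u1, hu1, u2, hu2, rfl⟩ := Submodule.mem_sup.mp hu
      obtain ⟨u3, hu3, u4, hu4, rfl⟩ := Submodule.mem_sup.mp hu1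
      obtain ⟨u5, hu5, u6, hu6, rfl⟩ := Submodule.mem_sup.mp hu3
      obtain ⟨d, rfl⟩ := Submodule.mem_span_singleton.mp hu2
      obtain ⟨c, rfl⟩ := Submodule.mem_span_singleton.mp hu4
      obtain ⟨b, rfl⟩ := Submodule.mem_span_singleton.mp hu6
      obtain ⟨a, rfl⟩ := Submodule.mem_span_singleton.mp hu5
      exact ⟨a, b, c, d, rfl⟩
    intro u hu v hv
    obtain ⟨a, b, c, d, rfl⟩ := gen u hu
    obtain ⟨a', b', c', d', rfl⟩ := gen v hv
    have e1 : β n c1 = 0 := LinearMap.mem_ker.mp hc1
    have e2 : β n c2 = 0 := LinearMap.mem_ker.mp hc2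
    have e3 : β n c3 = 0 := LinearMap.mem_ker.mp hc3
    simp only [map_add, LinearMap.add_apply, map_smul, LinearMap.smul_apply, beta_self hQ,
      e1, e2, e3, beta_symm hQ c1 n, beta_symm hQ c2 n, beta_symm hQ c3 n,
      beta_symm hQ c2 c1, beta_symm hQ c3 c1, beta_symm hQ c3 c2, smul_zero, add_zero, zero_add,
      ← ht12, ← ht13, ← ht23]
    repeat' first
      | apply add_mem
      | apply Submodule.smul_mem
      | assumption
      | exact zero_mem _
  have hT3 : 3 ≤ finrank (ZMod 2) T := by
    rw [← hT1d]; exact Submodule.finrank_le T1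
  by_contra hne
  have hk := ker_finrank hθ0
  -- the range of β n
  have hrange : finrank (ZMod 2) (LinearMap.range (β n)) = 1 := by
    have := LinearMap.finrank_range_add_finrank_ker (β n)
    rw [← hHdef, hH, hV] at this
    omega
  have hbr : ∃ b : T, b ≠ 0 ∧ ∀ v, β n v ∈ Submodule.span (ZMod 2) {b} := by
    have hnb : LinearMap.range (β n) ≠ ⊥ := by
      intro hb; rw [hb, finrank_bot] at hrange; omega
    obtain ⟨b, hb, hb0⟩ := Submodule.exists_mem_ne_zero_of_ne_bot hnb
    refine ⟨b, hb0, ?_⟩
    have heq : Submodule.span (ZMod 2) {b} = LinearMap.range (β n) := by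
      refine Submodule.eq_of_le_of_finrank_le ?_ ?_
      · rw [Submodule.span_singleton_le_iff_mem]; exact hb
      · rw [hrange, finrank_span_singleton hb0]
    intro v
    rw [heq]
    exact ⟨v, rfl⟩
  obtain ⟨b, hb0, hb⟩ := hbr
  have hb' : ∀ v, β n v = 0 ∨ β n v = b := by
    intro v
    obtain ⟨k, hk⟩ := Submodule.mem_span_singleton.mp (hb v)
    rcases z2 k with rfl | rfl
    · left; rw [← hk, zero_smul]
    · right; rw [← hk, one_smul]
  have hzT1 : ∀ z ∈ LinearMap.ker θ, z ≠ 0 → z ≠ b → z ∈ T1 := by
    intro z hz hz0 hzb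
    obtain ⟨U, hUd, hU⟩ := h.tmin z hz0
    have hle := RR_le_U hQ t θ hθ (LinearMap.mem_ker.mp hz) U hUd hU
    have hUH : U ≤ H := by
      intro u hu
      rw [hHdef, LinearMap.mem_ker]
      rcases hU n (hle hn) u hu with h1 | h1
      · exact h1
      · rcases hb' u with h2 | h2
        · exact h2
        · exact absurd (h1.symm.trans h2) hzb
    have hex : ∃ x ∈ U, ∃ y ∈ U, β x y ≠ 0 := by
      by_contra hno
      push Not at hno
      exact h.bad ⟨U, hno, hUd.le⟩
    obtain ⟨x, hx, y, hy, hxy⟩ := hex
    rw [← (hU x hx y hy).resolve_left hxy]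
    exact hβH x (hUH hx) y (hUH hy)
  have hbk : θ b = 0 := by
    by_contra hne0
    have : β n = 0 := by
      ext v
      rcases hb' v with h1 | h1
      · exact h1
      · have := hn v
        rw [h1] at this
        exact absurd this hne0
    apply hn0
    exact h.rad n (fun w => by rw [this]; rfl)
  have hkle : LinearMap.ker θ ≤ T1 := by
    intro z hz
    by_cases hz0 : z = 0
    · rw [hz0]; exact zero_mem _
    · by_cases hzb : z = b
      · obtain ⟨z1, hz1, hz1b⟩ := exists_not_mem_of_lt (S := Submodule.span (ZMod 2) {b})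
          (H := LinearMap.ker θ) (by rw [finrank_span_singleton hb0]; omega)
        have h1 : z1 ≠ 0 := by rintro rfl; exact hz1b (zero_mem _)
        have h2 : z1 ≠ b := by
          rintro rfl; exact hz1b (Submodule.mem_span_singleton_self _)
        have h3 := hzT1 z1 hz1 h1 h2
        have h4 : z1 + b ∈ T1 := by
          apply hzT1
          · rw [LinearMap.mem_ker, map_add, LinearMap.mem_ker.mp hz1, hbk, add_zero]
          · intro h5
            apply h2
            have e := add_self_eq b
            rw [← h5] at e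
            exact (add_right_cancel e).symm
          · intro h5
            exact h1 (by simpa using h5)
        have h5 := add_mem h3 h4
        rw [← add_assoc, add_self_eq, zero_add] at h5
        rw [hzb]; exact h5
      · exact hzT1 z hz hz0 hzb
  have hkeq : LinearMap.ker θ = T1 := Submodule.eq_of_le_of_finrank_le hkle (by omega)
  have := t.iso_bound θ H (fun u hu v hv => by
    have := hβH u hu v hv
    rw [← hkeq] at this
    exact LinearMap.mem_ker.mp this)
  omega

theorem finrank_T' [Finite V] [Finite T] (h : MinL q β) (t : Tools q β)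
    (hV : finrank (ZMod 2) V = 5) : finrank (ZMod 2) T = 3 := by
  have hQ := h.isQ
  obtain ⟨θ, hθ⟩ := exists_rank_four' h t (by omega)
  have hm : finrank (ZMod 2) (RR β θ) = 1 := by omega
  have hθ0 : θ ≠ 0 := by
    rintro rfl
    have : RR β (0 : Module.Dual (ZMod 2) T) = ⊤ := by
      rw [eq_top_iff]; intro x _ y; rfl
    rw [this, finrank_top] at hθ
    omega
  have hne : RR β θ ≠ ⊥ := by intro hb; rw [hb, finrank_bot] at hm; omega
  obtain ⟨n, hn, hn0⟩ := Submodule.exists_mem_ne_zero_of_ne_bot hne
  have hk := ker_finrank hθ0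
  have hrk := LinearMap.finrank_range_add_finrank_ker (β n)
  have hrle : LinearMap.range (β n) ≤ LinearMap.ker θ := by
    rintro _ ⟨v, rfl⟩
    exact LinearMap.mem_ker.mpr (hn v)
  have hrle' := Submodule.finrank_mono hrle
  have hr0 : finrank (ZMod 2) (LinearMap.range (β n)) ≠ 0 := by
    intro h0
    apply hn0
    apply h.rad
    intro w
    have : LinearMap.range (β n) = ⊥ := Submodule.finrank_eq_zero.mp h0
    have hw : β n w ∈ LinearMap.range (β n) := ⟨w, rfl⟩
    rw [this, Submodule.mem_bot] at hw
    exact hw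
  rcases (by omega : finrank (ZMod 2) (LinearMap.range (β n)) = 1 ∨
    finrank (ZMod 2) (LinearMap.range (β n)) = 2 ∨
    3 ≤ finrank (ZMod 2) (LinearMap.range (β n))) with hρ | hρ | hρ
  · exact case_line h t hV θ hθ0 hθ hn hn0 (by omega)
  · -- rank two
    by_contra hne3
    have hUeq : ∀ z ∈ LinearMap.ker θ, z ∉ LinearMap.range (β n) →
        ∀ u ∈ LinearMap.ker (β n), ∀ v ∈ LinearMap.ker (β n), β u v = 0 ∨ β u v = z := by
      intro z hz hzr
      have hz0 : z ≠ 0 := by rintro rfl; exact hzr (zero_mem _)
      obtain ⟨U, hUd, hU⟩ := h.tmin z hz0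
      have hle := RR_le_U hQ t θ hθ (LinearMap.mem_ker.mp hz) U hUd hU
      have hUH : U ≤ LinearMap.ker (β n) := by
        intro u hu
        rw [LinearMap.mem_ker]
        rcases hU n (hle hn) u hu with h1 | h1
        · exact h1
        · exfalso; apply hzr; rw [← h1]; exact ⟨u, rfl⟩
      have heq : U = LinearMap.ker (β n) := Submodule.eq_of_le_of_finrank_le hUH (by omega)
      rw [← heq]
      exact hU
    obtain ⟨z, hz, hzr⟩ := exists_not_mem_of_lt (S := LinearMap.range (β n))
      (H := LinearMap.ker θ) (by omega)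
    have hnb : LinearMap.range (β n) ≠ ⊥ := by
      intro hb; rw [hb, finrank_bot] at hρ; omega
    obtain ⟨s, hs, hs0⟩ := Submodule.exists_mem_ne_zero_of_ne_bot hnb
    have hz2 : z + s ∈ LinearMap.ker θ := add_mem hz (hrle hs)
    have hz2r : z + s ∉ LinearMap.range (β n) := by
      intro hm
      apply hzr
      have := sub_mem hm hs
      rwa [add_sub_cancel_right] at this
    refine h.bad ⟨LinearMap.ker (β n), ?_, by omega⟩
    intro u hu v hv
    rcases hUeq z hz hzr u hu v hv with h1 | h1
    · exact h1
    · rcases hUeq (z + s) hz2 hz2r u hu v hv with h2 | h2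
      · exact h2
      · exfalso
        apply hs0
        rw [h1] at h2
        exact (left_eq_add.mp h2)
  · -- rank at least three
    exfalso
    have hU : ∀ z, θ z = 0 → z ≠ 0 → ∃ U : Submodule (ZMod 2) V,
        LinearMap.ker (β n) ≤ U ∧ (∃ u ∈ U, β n u = z) ∧
        (∀ u ∈ U, ∀ v ∈ U, β u v = 0 ∨ β u v = z) ∧ 2 ≤ finrank (ZMod 2) (LinearMap.ker (β n)) := by
      intro z hz hz0
      obtain ⟨U, hUd, hU⟩ := h.tmin z hz0
      have hle := RR_le_U hQ t θ hθ hz U hUd hU
      obtain ⟨θ1, hθ1⟩ := exists_dual_one hz0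
      have hb := finrank_ker_functional U (fl β θ1 n)
      have hinf : U ⊓ LinearMap.ker (fl β θ1 n) ≤ LinearMap.ker (β n) := by
        rintro u ⟨hu, hu2⟩
        simp only [SetLike.mem_coe, LinearMap.mem_ker, fl_apply] at hu2
        rw [LinearMap.mem_ker]
        rcases hU n (hle hn) u hu with h1 | h1
        · exact h1
        · rw [h1, hθ1] at hu2; exact absurd hu2 one_ne_zero
      have hinf' := Submodule.finrank_mono hinf
      have heq : U ⊓ LinearMap.ker (fl β θ1 n) = LinearMap.ker (β n) :=
        Submodule.eq_of_le_of_finrank_le hinf (by omega)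
      refine ⟨U, ?_, ?_, hU, by omega⟩
      · rw [← heq]; exact inf_le_left
      · by_contra hno
        push Not at hno
        have hUk : U ≤ LinearMap.ker (β n) := by
          intro u hu
          rw [LinearMap.mem_ker]
          rcases hU n (hle hn) u hu with h1 | h1
          · exact h1
          · exact absurd h1 (hno u hu)
        have := Submodule.finrank_mono hUk
        omega
    have hkR : LinearMap.ker (β n) ≤ RR β θ := by
      intro k hk w
      by_cases hw : β n w = 0
      · have hex : ∃ w', β n w' ≠ 0 := by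
          by_contra hno
          push Not at hno
          exact hn0 (h.rad n hno)
        obtain ⟨w', hw'⟩ := hex
        obtain ⟨U, hkU, -, hUU, -⟩ := hU (β n w') (hn w') hw'
        rcases hUU k (hkU hk) w (hkU (LinearMap.mem_ker.mpr hw)) with h1 | h1
        · rw [h1, map_zero]
        · rw [h1]; exact hn w'
      · obtain ⟨U, hkU, ⟨u, hu, hun⟩, hUU, -⟩ := hU (β n w) (hn w) hw
        have hwu : w - u ∈ LinearMap.ker (β n) := by
          rw [LinearMap.mem_ker, map_sub, hun, sub_self]
        have hwU : w ∈ U := by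
          have := add_mem (hkU hwu) hu
          rwa [sub_add_cancel] at this
        rcases hUU k (hkU hk) w hwU with h1 | h1
        · rw [h1, map_zero]
        · rw [h1]; exact hn w
    have hkR' := Submodule.finrank_mono hkR
    have hex : ∃ w', β n w' ≠ 0 := by
      by_contra hno
      push Not at hno
      exact hn0 (h.rad n hno)
    obtain ⟨w', hw'⟩ := hex
    obtain ⟨U, -, -, -, h2⟩ := hU (β n w') (hn w') hw'
    omega

end Pool.Agent.Helper55.Core2
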