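import Pool.Agent.Helper5.Core2.Defs

set_option autoImplicit false

/-! Linear algebra over the field with two elements for the minimal bad configuration. -/

namespace Pool.Agent.Helper55.Core2

open Pool.Agent.Helper5.Core2 Module

variable {V T : Type*} [AddCommGroup V] [Module (ZMod 2) V] [AddCommGroup T] [Module (ZMod 2) T]
  {q : V → T} {β : V →ₗ[ZMod 2] V →ₗ[ZMod 2] T}

/-- Facts proved elsewhere, for one fixed pair `q, β`. -/
structure Tools (q : V → T) (β : V →ₗ[ZMod 2] V →ₗ[ZMod 2] T) : Prop where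
  club : ∀ (θ : Module.Dual (ZMod 2) T) {x y : V}, θ (q x) = 0 → θ (q y) = 0 → θ (β x y) = 0 →
    x ∈ RR β θ ∨ y ∈ RR β θ ∨ x + y ∈ RR β θ
  arf_ne : ∀ (θ : Module.Dual (ZMod 2) T) {a b c d : V}, θ (β a b) = 1 → θ (β c d) = 1 →
    θ (β a c) = 0 → θ (β a d) = 0 → θ (β b c) = 0 → θ (β b d) = 0 →
    θ (q a) * θ (q b) ≠ θ (q c) * θ (q d)
  rank_cases : ∀ (θ : Module.Dual (ZMod 2) T),
    Module.finrank (ZMod 2) V = Module.finrank (ZMod 2) (RR β θ) ∨
    Module.finrank (ZMod 2) V = Module.finrank (ZMod 2) (RR β θ) + 2 ∨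
    (Module.finrank (ZMod 2) V = Module.finrank (ZMod 2) (RR β θ) + 4 ∧
      ∀ r ∈ RR β θ, θ (q r) = 0)
  iso_bound : ∀ (θ : Module.Dual (ZMod 2) T)
    (U : Submodule (ZMod 2) V), (∀ u ∈ U, ∀ v ∈ U, θ (β u v) = 0) →
    2 * Module.finrank (ZMod 2) U ≤
      Module.finrank (ZMod 2) V + Module.finrank (ZMod 2) (RR β θ)

theorem z2 (a : ZMod 2) : a = 0 ∨ a = 1 := by
  revert a; decide

theorem z2' {a : ZMod 2} (h : a ≠ 0) : a = 1 := (z2 a).resolve_left h

theorem add_self_eq {M : Type*} [AddCommGroup M] [Module (ZMod 2) M] (x : M) : x + x = 0 :=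
  ZModModule.add_self x

theorem q_zero (h : IsQ q β) : q 0 = 0 := by
  have h1 := h.hq 0 0
  simp only [add_zero, map_zero] at h1
  have h2 := add_self_eq (q 0)
  rw [← h1] at h2
  exact h2

theorem beta_self (h : IsQ q β) (x : V) : β x x = 0 := by
  have h1 := h.hq x x
  rw [add_self_eq x, q_zero h, add_self_eq (q x), zero_add] at h1
  exact h1.symm

theorem beta_symm (h : IsQ q β) (x y : V) : β x y = β y x := by
  have h1 := beta_self h (x + y)
  simp only [map_add, LinearMap.add_apply, beta_self h, zero_add, add_zero] at h1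
  -- h1 : β y x + β x y = 0
  have h2 := add_self_eq (β y x)
  have h3 : β x y + β y x = β y x + β y x := by rw [h2, ← h1]; abel
  exact add_right_cancel h3

theorem exists_dual_one {t : T} (ht : t ≠ 0) : ∃ θ : Module.Dual (ZMod 2) T, θ t = 1 := by
  by_contra hcon
  push Not at hcon
  apply ht
  rw [← Module.forall_dual_apply_eq_zero_iff (ZMod 2)]
  intro θ
  exact (z2 (θ t)).resolve_right (hcon θ)

theorem exists_dual_one_one {s t : T} (hs : s ≠ 0) (ht : t ≠ 0) :
    ∃ θ : Module.Dual (ZMod 2) T, θ s = 1 ∧ θ t = 1 := by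
  obtain ⟨θ1, h1⟩ := exists_dual_one hs
  obtain ⟨θ2, h2⟩ := exists_dual_one ht
  rcases z2 (θ1 t) with h3 | h3
  · rcases z2 (θ2 s) with h4 | h4
    · exact ⟨θ1 + θ2, by simp [h1, h4], by simp [h2, h3]⟩
    · exact ⟨θ2, h4, h2⟩
  · exact ⟨θ1, h1, h3⟩

theorem mem_RR {θ : Module.Dual (ZMod 2) T} {x : V} : x ∈ RR β θ ↔ ∀ y, θ (β x y) = 0 := Iff.rfl

theorem RR_right (h : IsQ q β) {θ : Module.Dual (ZMod 2) T} {x : V} (hx : x ∈ RR β θ) (y : V) :
    θ (β y x) = 0 := by
  rw [beta_symm h]; exact hx y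

theorem finrank_ker_functional [Finite V] (U : Submodule (ZMod 2) V) (f : V →ₗ[ZMod 2] ZMod 2) :
    finrank (ZMod 2) U ≤ finrank (ZMod 2) (U ⊓ LinearMap.ker f : Submodule (ZMod 2) V) + 1 := by
  have h1 := LinearMap.finrank_range_add_finrank_ker f
  have h2 : finrank (ZMod 2) (LinearMap.range f) ≤ 1 := by
    have := Submodule.finrank_le (LinearMap.range f)
    simpa using this
  have h3 := Submodule.finrank_sup_add_finrank_inf_eq U (LinearMap.ker f)
  have h4 := Submodule.finrank_le (U ⊔ LinearMap.ker f)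
  omega

theorem finrank_ker_two [Finite V] (U : Submodule (ZMod 2) V) (f g : V →ₗ[ZMod 2] ZMod 2) :
    finrank (ZMod 2) U ≤
      finrank (ZMod 2) (U ⊓ LinearMap.ker f ⊓ LinearMap.ker g : Submodule (ZMod 2) V) + 2 := by
  have h1 := finrank_ker_functional U f
  have h2 := finrank_ker_functional (U ⊓ LinearMap.ker f) g
  omega

/-- The functional `v ↦ θ (β x v)`. -/
def fl (β : V →ₗ[ZMod 2] V →ₗ[ZMod 2] T) (θ : Module.Dual (ZMod 2) T) (x : V) :
    V →ₗ[ZMod 2] ZMod 2 := θ.comp (β x)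

@[simp] theorem fl_apply (θ : Module.Dual (ZMod 2) T) (x v : V) : fl β θ x v = θ (β x v) := rfl

theorem sup_iso (h : IsQ q β) (θ : Module.Dual (ZMod 2) T) (U : Submodule (ZMod 2) V)
    (hU : ∀ u ∈ U, ∀ v ∈ U, θ (β u v) = 0) :
    ∀ u ∈ U ⊔ RR β θ, ∀ v ∈ U ⊔ RR β θ, θ (β u v) = 0 := by
  intro u hu v hv
  obtain ⟨a, ha, b, hb, rfl⟩ := Submodule.mem_sup.mp hu
  obtain ⟨c, hc, d, hd, rfl⟩ := Submodule.mem_sup.mp hv
  simp only [map_add, LinearMap.add_apply]
  rw [hU a ha c hc, hb c, RR_right h hd a, hb d]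
  simp

theorem RR_le_of_iso [Finite V] (h : IsQ q β) (t : Tools q β) (θ : Module.Dual (ZMod 2) T)
    (hθ : finrank (ZMod 2) V = finrank (ZMod 2) (RR β θ) + 4)
    (U : Submodule (ZMod 2) V) (hU : ∀ u ∈ U, ∀ v ∈ U, θ (β u v) = 0)
    (hd : finrank (ZMod 2) V = finrank (ZMod 2) U + 2) : RR β θ ≤ U := by
  have h1 := t.iso_bound θ _ (sup_iso h θ U hU)
  have h2 : finrank (ZMod 2) (U ⊔ RR β θ : Submodule (ZMod 2) V) ≤ finrank (ZMod 2) U := by omega
  have h3 : U = U ⊔ RR β θ := Submodule.eq_of_le_of_finrank_le le_sup_left h2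
  rw [h3]
  exact le_sup_right

theorem RR_le_U [Finite V] (h : IsQ q β) (t : Tools q β) (θ : Module.Dual (ZMod 2) T)
    (hθ : finrank (ZMod 2) V = finrank (ZMod 2) (RR β θ) + 4)
    {z : T} (hz : θ z = 0)
    (U : Submodule (ZMod 2) V) (hd : finrank (ZMod 2) V = finrank (ZMod 2) U + 2)
    (hU : ∀ u ∈ U, ∀ v ∈ U, β u v = 0 ∨ β u v = z) : RR β θ ≤ U := by
  refine RR_le_of_iso h t θ hθ U ?_ hd
  intro u hu v hv
  rcases hU u hu v hv with h1 | h1 <;> rw [h1]
  · simp
  · exact hz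

/-- `exists_rank_four`, given the tools. -/
theorem exists_rank_four' [Finite V] [Finite T] (h : MinL q β) (t : Tools q β)
    (hfour : finrank (ZMod 2) V = 4 → Good β) :
    ∃ θ : Module.Dual (ZMod 2) T,
      Module.finrank (ZMod 2) V = Module.finrank (ZMod 2) (RR β θ) + 4 := by
  by_contra hcon
  push Not at hcon
  have hQ := h.isQ
  have hrk : ∀ θ : Module.Dual (ZMod 2) T, θ ≠ 0 →
      finrank (ZMod 2) V = finrank (ZMod 2) (RR β θ) + 2 := by
    intro θ hθ
    rcases t.rank_cases θ with h1 | h1 | h1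
    · exfalso
      have h2 : RR β θ = ⊤ := Submodule.eq_top_of_finrank_eq h1.symm
      obtain ⟨v, w, hvw⟩ := h.spans θ hθ
      apply hvw
      have h3 : v ∈ RR β θ := by rw [h2]; trivial
      exact h3 w
    · exact h1
    · exact absurd h1.1 (hcon θ)
  -- T is nontrivial
  have hT : ∃ z : T, z ≠ 0 := by
    by_contra hT
    push Not at hT
    apply h.bad
    refine ⟨⊤, fun u _ v _ => hT _, ?_⟩
    simp
  obtain ⟨z, hz⟩ := hT
  obtain ⟨U, hUd, hU⟩ := h.tmin z hz
  have hex : ∃ x ∈ U, ∃ y ∈ U, β x y ≠ 0 := by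
    by_contra hno
    push Not at hno
    exact h.bad ⟨U, hno, hUd.le⟩
  obtain ⟨x, hx, y, hy, hxy⟩ := hex
  have hxyz : β x y = z := (hU x hx y hy).resolve_left hxy
  -- for θ z = 1
  have hRR : ∀ θ : Module.Dual (ZMod 2) T, θ z = 1 →
      ∀ v, θ (β x v) = 0 → θ (β y v) = 0 → v ∈ RR β θ := by
    intro θ hθ v hv1 hv2
    have hθ0 : θ ≠ 0 := by rintro rfl; simp at hθ
    have hr := hrk θ hθ0
    set K : Submodule (ZMod 2) V := LinearMap.ker (fl β θ x) ⊓ LinearMap.ker (fl β θ y) with hK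
    have hle : RR β θ ≤ K := by
      intro w hw
      refine ⟨?_, ?_⟩
      · simp only [SetLike.mem_coe, LinearMap.mem_ker, fl_apply]; exact RR_right hQ hw x
      · simp only [SetLike.mem_coe, LinearMap.mem_ker, fl_apply]; exact RR_right hQ hw y
    have hKd : finrank (ZMod 2) K + 2 ≤ finrank (ZMod 2) V := by
      have h1 : LinearMap.ker (fl β θ x) < ⊤ := by
        rw [lt_top_iff_ne_top]
        intro htop
        have : y ∈ LinearMap.ker (fl β θ x) := by rw [htop]; trivial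
        simp only [LinearMap.mem_ker, fl_apply, hxyz, hθ] at this
        exact one_ne_zero this
      have h2 : K < LinearMap.ker (fl β θ x) := by
        refine lt_of_le_of_ne inf_le_left ?_
        intro heq
        have hxm : x ∈ LinearMap.ker (fl β θ x) := by
          simp only [LinearMap.mem_ker, fl_apply, beta_self hQ, map_zero]
        rw [← heq] at hxm
        have := hxm.2
        simp only [SetLike.mem_coe, LinearMap.mem_ker, fl_apply] at this
        rw [beta_symm hQ, hxyz, hθ] at this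
        exact one_ne_zero this
      have h3 := Submodule.finrank_lt_finrank_of_lt h2
      have h4 := Submodule.finrank_lt_finrank_of_lt h1
      rw [finrank_top] at h4
      omega
    have heq : RR β θ = K := Submodule.eq_of_le_of_finrank_le hle (by omega)
    rw [heq]
    exact ⟨hv1, hv2⟩
  have hW : ∀ v, β x v = 0 → β y v = 0 → v = 0 := by
    intro v hv1 hv2
    apply h.rad
    intro w
    by_contra hne
    obtain ⟨θ, h1, h2⟩ := exists_dual_one_one hz hne
    have h3 := hRR θ h1 v (by rw [hv1]; simp) (by rw [hv2]; simp)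
    have h4 := h3 w
    rw [h2] at h4
    exact one_ne_zero h4
  obtain ⟨θ, hθ⟩ := exists_dual_one hz
  have hUb := finrank_ker_two U (fl β θ x) (fl β θ y)
  have hbot : U ⊓ LinearMap.ker (fl β θ x) ⊓ LinearMap.ker (fl β θ y) = ⊥ := by
    rw [eq_bot_iff]
    rintro v ⟨⟨hvU, hv1⟩, hv2⟩
    simp only [SetLike.mem_coe, LinearMap.mem_ker, fl_apply] at hv1 hv2
    rw [Submodule.mem_bot]
    apply hW
    · rcases hU x hx v hvU with h1 | h1
      · exact h1
      · rw [h1, hθ] at hv1; exact absurd hv1 one_ne_zero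
    · rcases hU y hy v hvU with h1 | h1
      · exact h1
      · rw [h1, hθ] at hv2; exact absurd hv2 one_ne_zero
  rw [hbot, finrank_bot] at hUb
  have hr4 : finrank (ZMod 2) V ≤ 4 := by omega
  rcases Nat.lt_or_ge (finrank (ZMod 2) V) 4 with h4 | h4
  · rcases Nat.lt_or_ge (finrank (ZMod 2) V) 3 with h3 | h3
    · exact h.bad ⟨⊥, by
        intro u hu v hv
        rw [Submodule.mem_bot] at hu
        rw [hu]; simp, by rw [finrank_bot]; omega⟩
    · have hpos : 0 < finrank (ZMod 2) V := by omega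
      have hnt : Nontrivial V := Module.finrank_pos_iff.mp hpos
      obtain ⟨v, hv⟩ := exists_ne (0 : V)
      refine h.bad ⟨Submodule.span (ZMod 2) {v}, ?_, ?_⟩
      · intro a ha b hb
        obtain ⟨c, rfl⟩ := Submodule.mem_span_singleton.mp ha
        obtain ⟨d, rfl⟩ := Submodule.mem_span_singleton.mp hb
        simp [beta_self hQ]
      · rw [finrank_span_singleton hv]; omega
  · exact h.bad (hfour (by omega))

theorem two_drop [Finite V] (hQ : IsQ q β) (θ : Module.Dual (ZMod 2) T) (U : Submodule (ZMod 2) V)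
    {x y : V} (hx : x ∈ U) (hy : y ∈ U) (hxy : θ (β x y) = 1) :
    finrank (ZMod 2) (U ⊓ LinearMap.ker (fl β θ x) ⊓ LinearMap.ker (fl β θ y) :
      Submodule (ZMod 2) V) + 2 ≤ finrank (ZMod 2) U := by
  have h1 : U ⊓ LinearMap.ker (fl β θ x) < U := by
    refine lt_of_le_of_ne inf_le_left ?_
    intro heq
    have : y ∈ U ⊓ LinearMap.ker (fl β θ x) := by rw [heq]; exact hy
    have := this.2
    simp only [SetLike.mem_coe, LinearMap.mem_ker, fl_apply, hxy] at this
    exact one_ne_zero this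
  have h2 : U ⊓ LinearMap.ker (fl β θ x) ⊓ LinearMap.ker (fl β θ y) < U ⊓ LinearMap.ker (fl β θ x) := by
    refine lt_of_le_of_ne inf_le_left ?_
    intro heq
    have hxm : x ∈ U ⊓ LinearMap.ker (fl β θ x) := by
      refine ⟨hx, ?_⟩
      simp only [SetLike.mem_coe, LinearMap.mem_ker, fl_apply, beta_self hQ, map_zero]
    rw [← heq] at hxm
    have := hxm.2
    simp only [SetLike.mem_coe, LinearMap.mem_ker, fl_apply] at this
    rw [beta_symm hQ, hxy] at this
    exact one_ne_zero this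
  have h3 := Submodule.finrank_lt_finrank_of_lt h2
  have h4 := Submodule.finrank_lt_finrank_of_lt h1
  omega

theorem exists_pair (hQ : IsQ q β) (hrad : ∀ v, (∀ w, β v w = 0) → v = 0)
    (θ1 θ2 θ : Module.Dual (ZMod 2) T) (hsum : ∀ s, θ s = θ1 s + θ2 s)
    (hinj : ∀ s, θ1 s = 0 → θ2 s = 0 → s = 0) {a b : V} (ha : a ∈ RR β θ) (hb : b ∈ RR β θ)
    (h1 : θ1 (β a b) = 1)
    (hW : LinearMap.ker (fl β θ1 a) ⊓ LinearMap.ker (fl β θ1 b) ≤ RR β θ1 ⊔ RR β θ2)
    (hne : RR β θ2 ≠ ⊥) : ∃ c ∈ RR β θ2, ∃ d ∈ RR β θ2, θ (β c d) = 1 := by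
  by_contra hcon
  push Not at hcon
  obtain ⟨c, hc, hc0⟩ := Submodule.exists_mem_ne_zero_of_ne_bot hne
  apply hc0
  apply hrad
  have hcθ : ∀ w, θ (β c w) = 0 := by
    intro w
    set w2 := w + (θ1 (β b w)) • a + (θ1 (β a w)) • b with hw2
    have hba : θ1 (β b a) = 1 := by rw [beta_symm hQ, h1]
    have hm : w2 ∈ LinearMap.ker (fl β θ1 a) ⊓ LinearMap.ker (fl β θ1 b) := by
      refine ⟨?_, ?_⟩
      · simp only [SetLike.mem_coe, LinearMap.mem_ker, fl_apply, hw2, map_add, map_smul,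
          beta_self hQ, h1, map_zero, smul_eq_mul, mul_one, add_zero, mul_zero]
        exact add_self_eq (θ1 (β a w))
      · simp only [SetLike.mem_coe, LinearMap.mem_ker, fl_apply, hw2, map_add, map_smul,
          beta_self hQ, hba, map_zero, smul_eq_mul, mul_one, add_zero, mul_zero]
        exact add_self_eq (θ1 (β b w))
    obtain ⟨e, he, f, hf, hef⟩ := Submodule.mem_sup.mp (hW hm)
    have h2 : θ (β c w2) = 0 := by
      rw [← hef, map_add, map_add]
      have h3 : θ (β c e) = 0 := by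
        rw [hsum, hc e, RR_right hQ he c, add_zero]
      have h4 : θ (β c f) = 0 := (z2 _).resolve_right (hcon c hc f hf)
      rw [h3, h4, add_zero]
    rw [hw2] at h2
    simpa only [map_add, map_smul, RR_right hQ ha c, RR_right hQ hb c, smul_zero, add_zero] using h2
  intro w
  have h3 := hcθ w
  rw [hsum, hc w, add_zero] at h3
  exact hinj _ h3 (hc w)

theorem rad_isotropic' [Finite V] [Finite T] (h : MinL q β) (t : Tools q β)
    (θ : Module.Dual (ZMod 2) T)
    (hθ : finrank (ZMod 2) V = finrank (ZMod 2) (RR β θ) + 4) :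
    ∀ x ∈ RR β θ, ∀ y ∈ RR β θ, β x y = 0 := by
  have hQ := h.isQ
  intro a ha b hb
  by_contra hab
  have hθz : θ (β a b) = 0 := ha b
  by_cases hcase : ∃ z', z' ≠ 0 ∧ z' ≠ β a b ∧ θ z' = 0
  · obtain ⟨z', h1, h2, h3⟩ := hcase
    obtain ⟨U, hUd, hU⟩ := h.tmin z' h1
    have hle := RR_le_U hQ t θ hθ h3 U hUd hU
    rcases hU a (hle ha) b (hle hb) with h4 | h4
    · exact hab h4
    · exact h2 h4.symm
  · push Not at hcase
    obtain ⟨θ1, hθ1⟩ := exists_dual_one hab
    have hinj : ∀ s, θ s = 0 → θ1 s = 0 → s = 0 := by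
      intro s h1 h2
      by_contra hs
      by_cases hsz : s = β a b
      · rw [hsz, hθ1] at h2; exact one_ne_zero h2
      · exact hcase s hs hsz h1
    set θ2 : Module.Dual (ZMod 2) T := θ + θ1 with hθ2
    have e2 : ∀ s, θ2 s = θ s + θ1 s := fun s => rfl
    have e1 : ∀ s, θ1 s = θ s + θ2 s := by
      intro s; rw [e2, ← add_assoc, add_self_eq (θ s), zero_add]
    have e0 : ∀ s, θ s = θ1 s + θ2 s := by
      intro s; rw [e2, add_comm (θ s), ← add_assoc, add_self_eq (θ1 s), zero_add]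
    have hinj12 : ∀ s, θ1 s = 0 → θ2 s = 0 → s = 0 := by
      intro s h1 h2
      refine hinj s ?_ h1
      rw [e0, h1, h2, add_zero]
    have hab2 : θ2 (β a b) = 1 := by rw [e2, hθz, hθ1, zero_add]
    set W : Submodule (ZMod 2) V :=
      ⊤ ⊓ LinearMap.ker (fl β θ1 a) ⊓ LinearMap.ker (fl β θ1 b) with hWdef
    have hWd := two_drop hQ θ1 ⊤ (x := a) (y := b) trivial trivial hθ1
    rw [← hWdef, finrank_top] at hWd
    have hle1 : RR β θ1 ≤ W := by
      intro v hv
      refine ⟨⟨trivial, ?_⟩, ?_⟩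
      · simp only [SetLike.mem_coe, LinearMap.mem_ker, fl_apply]; exact RR_right hQ hv a
      · simp only [SetLike.mem_coe, LinearMap.mem_ker, fl_apply]; exact RR_right hQ hv b
    have hle2 : RR β θ2 ≤ W := by
      intro v hv
      refine ⟨⟨trivial, ?_⟩, ?_⟩
      · simp only [SetLike.mem_coe, LinearMap.mem_ker, fl_apply]
        rw [e1, RR_right hQ hv a, ha v, add_zero]
      · simp only [SetLike.mem_coe, LinearMap.mem_ker, fl_apply]
        rw [e1, RR_right hQ hv b, hb v, add_zero]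
    have hdisj : RR β θ1 ⊓ RR β θ2 = ⊥ := by
      rw [eq_bot_iff]
      rintro v ⟨hv1, hv2⟩
      rw [Submodule.mem_bot]
      exact h.rad v (fun w => hinj12 _ (hv1 w) (hv2 w))
    have hsupinf := Submodule.finrank_sup_add_finrank_inf_eq (RR β θ1) (RR β θ2)
    rw [hdisj, finrank_bot] at hsupinf
    have hsupW : finrank (ZMod 2) (RR β θ1 ⊔ RR β θ2 : Submodule (ZMod 2) V) ≤ finrank (ZMod 2) W :=
      Submodule.finrank_mono (sup_le hle1 hle2)
    have hR0 := two_drop hQ θ1 (RR β θ) ha hb hθ1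
    have hc1 := t.rank_cases θ1
    have hc2 := t.rank_cases θ2
    have hr6 : finrank (ZMod 2) V = 6 := by omega
    have hd1 : finrank (ZMod 2) (RR β θ1) = 2 := by omega
    have hd2 : finrank (ZMod 2) (RR β θ2) = 2 := by omega
    have hq1 : ∀ r ∈ RR β θ1, θ1 (q r) = 0 := by
      rcases hc1 with h1 | h1 | h1
      · omega
      · omega
      · exact h1.2
    have hq2 : ∀ r ∈ RR β θ2, θ2 (q r) = 0 := by
      rcases hc2 with h1 | h1 | h1
      · omega
      · omega
      · exact h1.2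
    have hq0 : ∀ r ∈ RR β θ, θ (q r) = 0 := by
      rcases t.rank_cases θ with h1 | h1 | h1
      · omega
      · omega
      · exact h1.2
    have hWeq : RR β θ1 ⊔ RR β θ2 = W :=
      Submodule.eq_of_le_of_finrank_le (sup_le hle1 hle2) (by omega)
    have hWle : LinearMap.ker (fl β θ1 a) ⊓ LinearMap.ker (fl β θ1 b) ≤ RR β θ1 ⊔ RR β θ2 := by
      rw [hWeq, hWdef, top_inf_eq]
    have hWle2 : LinearMap.ker (fl β θ2 a) ⊓ LinearMap.ker (fl β θ2 b) ≤ RR β θ2 ⊔ RR β θ1 := by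
      rw [sup_comm]
      refine le_trans ?_ hWle
      rintro v ⟨hv1, hv2⟩
      simp only [SetLike.mem_coe, LinearMap.mem_ker, fl_apply] at hv1 hv2
      refine ⟨?_, ?_⟩
      · simp only [SetLike.mem_coe, LinearMap.mem_ker, fl_apply]
        rw [e1, hv1, ha v, add_zero]
      · simp only [SetLike.mem_coe, LinearMap.mem_ker, fl_apply]
        rw [e1, hv2, hb v, add_zero]
    obtain ⟨c, hc, d, hd, hcd⟩ := exists_pair hQ h.rad θ1 θ2 θ e0 hinj12 ha hb hθ1 hWle
      (by intro hbot; rw [hbot, finrank_bot] at hd2; omega)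
    obtain ⟨e, he, f, hf, hef⟩ := exists_pair hQ h.rad θ2 θ1 θ
      (fun s => by rw [e0, add_comm]) (fun s h1 h2 => hinj12 s h2 h1) ha hb hab2 hWle2
      (by intro hbot; rw [hbot, finrank_bot] at hd1; omega)
    have hcd1 : θ1 (β c d) = 1 := by rw [e1, hcd, hc d, add_zero]
    have hef2 : θ2 (β e f) = 1 := by rw [e2, hef, he f, add_zero]
    have o1 : ∀ u ∈ RR β θ, ∀ v ∈ RR β θ2, θ1 (β u v) = 0 := by
      intro u hu v hv
      rw [e1, hu v, RR_right hQ hv u, add_zero]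
    have o2 : ∀ u ∈ RR β θ, ∀ v ∈ RR β θ1, θ2 (β u v) = 0 := by
      intro u hu v hv
      rw [e2, hu v, RR_right hQ hv u, add_zero]
    have o0 : ∀ u ∈ RR β θ2, ∀ v ∈ RR β θ1, θ (β u v) = 0 := by
      intro u hu v hv
      rw [e0, hu v, RR_right hQ hv u, add_zero]
    have hA := t.arf_ne θ1 hθ1 hcd1 (o1 a ha c hc) (o1 a ha d hd) (o1 b hb c hc) (o1 b hb d hd)
    have hB := t.arf_ne θ2 hab2 hef2 (o2 a ha e he) (o2 a ha f hf) (o2 b hb e he) (o2 b hb f hf)
    have hC := t.arf_ne θ hcd hef (o0 c hc e he) (o0 c hc f hf) (o0 d hd e he) (o0 d hd f hf)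
    rw [e2 (q a), e2 (q b), hq0 a ha, hq0 b hb, zero_add, zero_add,
      e2 (q e), e2 (q f), hq1 e he, hq1 f hf, add_zero, add_zero] at hB
    rw [e1 (q c), e1 (q d), hq2 c hc, hq2 d hd, add_zero, add_zero] at hA
    revert hA hB hC
    generalize θ1 (q a) * θ1 (q b) = A
    generalize θ (q c) * θ (q d) = B
    generalize θ (q e) * θ (q f) = C
    revert A B C
    decide

theorem P0 [Finite V] (hQ : IsQ q β) (t : Tools q β) (θ θ' : Module.Dual (ZMod 2) T)
    (hθ : finrank (ZMod 2) V = finrank (ZMod 2) (RR β θ) + 4)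
    (hiso : ∀ x ∈ RR β θ, ∀ y ∈ RR β θ, β x y = 0) (hqθ : ∀ r ∈ RR β θ, θ (q r) = 0)
    {n1 n2 : V} (h1 : n1 ∈ RR β θ) (h2 : n2 ∈ RR β θ)
    (hn1 : n1 ∉ RR β θ') (hn2 : n2 ∉ RR β θ') (hn3 : n1 + n2 ∉ RR β θ')
    (hq1 : θ' (q n1) = 0) : False := by
  have hx0 : ∃ x, θ' (β n1 x) = 0 ∧ θ' (β n2 x) = 1 := by
    simp only [mem_RR, not_forall] at hn2 hn3
    obtain ⟨x2, hx2⟩ := hn2
    obtain ⟨x3, hx3⟩ := hn3
    have hx2 := z2' hx2
    have hx3 := z2' hx3
    simp only [map_add, LinearMap.add_apply] at hx3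
    rcases z2 (θ' (β n1 x2)) with h3 | h3
    · exact ⟨x2, h3, hx2⟩
    · rcases z2 (θ' (β n1 x3)) with h4 | h4
      · exact ⟨x3, h4, by rw [h4, zero_add] at hx3; exact hx3⟩
      · rw [h4] at hx3
        have h5 : θ' (β n2 x3) = 0 := by
          revert hx3; generalize θ' (β n2 x3) = u; revert u; decide
        refine ⟨x2 + x3, ?_, ?_⟩
        · rw [map_add, map_add, h3, h4]; decide
        · rw [map_add, map_add, hx2, h5, add_zero]
  obtain ⟨x0, hx01, hx02⟩ := hx0
  have hX : ∀ θs : Module.Dual (ZMod 2) T, (∀ y, θs (β n1 y) = θ' (β n1 y)) →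
      (∀ y, θs (β n2 y) = θ' (β n2 y)) → θs (q n1) = 0 →
      ∀ x, θ' (β n1 x) = 0 → θ' (β n2 x) = 1 → θs (q x) = 1 := by
    intro θs hs1 hs2 hs3 x hx1 hx2
    by_contra hne
    have h0 : θs (q x) = 0 := (z2 _).resolve_right hne
    rcases t.club θs h0 hs3 (by rw [beta_symm hQ, hs1, hx1]) with h3 | h3 | h3
    · have := h3 n2
      rw [beta_symm hQ, hs2, hx2] at this
      exact one_ne_zero this
    · exact hn1 (fun y => by rw [← hs1]; exact h3 y)
    · have := h3 n2
      rw [map_add, LinearMap.add_apply, hiso n1 h1 n2 h2, add_zero, beta_symm hQ, hs2, hx2] at this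
      exact one_ne_zero this
  have key : ∀ x, θ' (β n1 x) = 0 → θ' (β n2 x) = 1 → θ (q x) = 0 := by
    intro x hx1 hx2
    have k1 := hX θ' (fun _ => rfl) (fun _ => rfl) hq1 x hx1 hx2
    have k2 := hX (θ' + θ) (fun y => by rw [LinearMap.add_apply, h1 y, add_zero])
      (fun y => by rw [LinearMap.add_apply, h2 y, add_zero])
      (by rw [LinearMap.add_apply, hq1, hqθ n1 h1, add_zero]) x hx1 hx2
    rw [LinearMap.add_apply, k1] at k2
    revert k2; generalize θ (q x) = u; revert u; decide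
  have hY1 := finrank_ker_two (⊤ : Submodule (ZMod 2) V) (fl β θ' n1) (fl β θ' n2)
  have hY2 := finrank_ker_functional
    (⊤ ⊓ LinearMap.ker (fl β θ' n1) ⊓ LinearMap.ker (fl β θ' n2)) (fl β θ x0)
  rw [finrank_top] at hY1
  have hw : ∃ w ∈ (⊤ ⊓ LinearMap.ker (fl β θ' n1) ⊓ LinearMap.ker (fl β θ' n2) ⊓
      LinearMap.ker (fl β θ x0) : Submodule (ZMod 2) V), w ∉ RR β θ := by
    by_contra hno
    push Not at hno
    have hle : (⊤ ⊓ LinearMap.ker (fl β θ' n1) ⊓ LinearMap.ker (fl β θ' n2) ⊓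
      LinearMap.ker (fl β θ x0) : Submodule (ZMod 2) V) ≤ RR β θ := hno
    have := Submodule.finrank_mono hle
    omega
  obtain ⟨w, ⟨⟨⟨-, hw1⟩, hw2⟩, hw3⟩, hwR⟩ := hw
  simp only [SetLike.mem_coe, LinearMap.mem_ker, fl_apply] at hw1 hw2 hw3
  have hs1 : θ' (β n1 (x0 + w)) = 0 := by rw [map_add, map_add, hx01, hw1, add_zero]
  have hs2 : θ' (β n2 (x0 + w)) = 1 := by rw [map_add, map_add, hx02, hw2, add_zero]
  rcases t.club θ (key x0 hx01 hx02) (key (x0 + w) hs1 hs2)
    (by rw [map_add, beta_self hQ, zero_add, hw3]) with h3 | h3 | h3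
  · have := hiso n2 h2 x0 h3
    rw [this, map_zero] at hx02
    exact zero_ne_one hx02
  · have := hiso n2 h2 _ h3
    rw [this, map_zero] at hs2
    exact zero_ne_one hs2
  · rw [← add_assoc, add_self_eq, zero_add] at h3
    exact hwR h3

theorem P1 [Finite V] (hQ : IsQ q β) (t : Tools q β) (θ θ' : Module.Dual (ZMod 2) T)
    (hθ : finrank (ZMod 2) V = finrank (ZMod 2) (RR β θ) + 4)
    (hiso : ∀ x ∈ RR β θ, ∀ y ∈ RR β θ, β x y = 0) (hqθ : ∀ r ∈ RR β θ, θ (q r) = 0)
    {n1 n2 : V} (h1 : n1 ∈ RR β θ) (h2 : n2 ∈ RR β θ) :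
    n1 ∈ RR β θ' ∨ n2 ∈ RR β θ' ∨ n1 + n2 ∈ RR β θ' := by
  by_contra hcon
  push Not at hcon
  obtain ⟨hn1, hn2, hn3⟩ := hcon
  rcases z2 (θ' (q n1)) with k1 | k1
  · exact P0 hQ t θ θ' hθ hiso hqθ h1 h2 hn1 hn2 hn3 k1
  · rcases z2 (θ' (q n2)) with k2 | k2
    · exact P0 hQ t θ θ' hθ hiso hqθ h2 h1 hn2 hn1 (by rw [add_comm]; exact hn3) k2
    · have k3 : θ' (q (n1 + n2)) = 0 := by
        rw [hQ.hq, hiso n1 h1 n2 h2, add_zero, map_add, k1, k2]; decide
      refine P0 hQ t θ θ' hθ hiso hqθ (add_mem h1 h2) h2 hn3 hn2 ?_ k3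
      rw [add_assoc, add_self_eq, add_zero]
      exact hn1

theorem rad_le_one' [Finite V] [Finite T] (h : MinL q β) (t : Tools q β)
    (θ : Module.Dual (ZMod 2) T)
    (hθ : finrank (ZMod 2) V = finrank (ZMod 2) (RR β θ) + 4) :
    finrank (ZMod 2) (RR β θ) ≤ 1 := by
  by_contra hcon
  push Not at hcon
  have hQ := h.isQ
  have hiso := rad_isotropic' h t θ hθ
  have hqθ : ∀ r ∈ RR β θ, θ (q r) = 0 := by
    rcases t.rank_cases θ with h1 | h1 | h1
    · omega
    · omega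
    · exact h1.2
  have hne : RR β θ ≠ ⊥ := by intro hb; rw [hb, finrank_bot] at hcon; omega
  obtain ⟨n1, hn1, hn10⟩ := Submodule.exists_mem_ne_zero_of_ne_bot hne
  obtain ⟨f, hf⟩ := exists_dual_one (T := V) hn10
  have hXd := finrank_ker_functional (⊤ : Submodule (ZMod 2) V) f
  rw [top_inf_eq, finrank_top] at hXd
  obtain ⟨I, hIX, hI, hId⟩ := h.vmin (LinearMap.ker f) (by
    intro htop
    have : n1 ∈ LinearMap.ker f := by rw [htop]; trivial
    rw [LinearMap.mem_ker, hf] at this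
    exact one_ne_zero this)
  have hn1I : n1 ∉ I := by
    intro hm
    have := hIX hm
    rw [LinearMap.mem_ker, hf] at this
    exact one_ne_zero this
  have hex : ∃ i ∈ I, β n1 i ≠ 0 := by
    by_contra hno
    push Not at hno
    have hlt : I < I ⊔ Submodule.span (ZMod 2) {n1} := by
      refine lt_of_le_of_ne le_sup_left ?_
      intro heq
      apply hn1I
      rw [heq]
      exact Submodule.mem_sup_right (Submodule.mem_span_singleton_self n1)
    have hlt' := Submodule.finrank_lt_finrank_of_lt hlt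
    refine h.bad ⟨I ⊔ Submodule.span (ZMod 2) {n1}, ?_, by omega⟩
    intro u hu v hv
    obtain ⟨a, ha, b, hb, rfl⟩ := Submodule.mem_sup.mp hu
    obtain ⟨c, hc, d, hd, rfl⟩ := Submodule.mem_sup.mp hv
    obtain ⟨k, rfl⟩ := Submodule.mem_span_singleton.mp hb
    obtain ⟨l, rfl⟩ := Submodule.mem_span_singleton.mp hd
    simp only [map_add, LinearMap.add_apply, map_smul, LinearMap.smul_apply]
    rw [hI a ha c hc, hno c hc, beta_symm hQ a n1, hno a ha, beta_self hQ]
    simp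
  obtain ⟨i, hi, hni⟩ := hex
  have hb := t.iso_bound θ _ (sup_iso hQ θ I (fun u hu v hv => by rw [hI u hu v hv, map_zero]))
  have hsi := Submodule.finrank_sup_add_finrank_inf_eq I (RR β θ)
  have hne2 : I ⊓ RR β θ ≠ ⊥ := by
    intro hbot
    rw [hbot, finrank_bot] at hsi
    omega
  obtain ⟨n, ⟨hnI, hnR⟩, hn0⟩ := Submodule.exists_mem_ne_zero_of_ne_bot hne2
  have hw : ∃ w, β n w ≠ 0 := by
    by_contra hno
    push Not at hno
    exact hn0 (h.rad n hno)
  obtain ⟨w, hw⟩ := hw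
  obtain ⟨θ', h1, h2⟩ := exists_dual_one_one hni hw
  rcases P1 hQ t θ θ' hθ hiso hqθ hn1 hnR with h3 | h3 | h3
  · rw [h3 i] at h1; exact zero_ne_one h1
  · rw [h3 w] at h2; exact zero_ne_one h2
  · have h4 := h3 i
    rw [map_add, LinearMap.add_apply, hI n hnI i hi, add_zero, h1] at h4
    exact one_ne_zero h4

end Pool.Agent.Helper55.Core2
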